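import Pool.Agent.Lib_helper81.PQ.R2
import Pool.Agent.Lib_helper51.GL.Defs
import Pool.Agent.Lib_helper37.GL.DIR

/-! Project GL (MP_05dcdc_nt), block CS: the genus characters are independent. -/

set_option autoImplicit false

namespace Pool.Agent.GL

open Finset Pool.Agent.PQ Pool.Agent.TM32

theorem CS_prod (a : ℤ) (S : Finset ℕ) (hS : ∀ p ∈ S, p ≠ 0) :
    jacobiSym a (∏ p ∈ S, p) = ∏ p ∈ S, jacobiSym a p := by
  classical
  induction S using Finset.induction_on with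
  | empty => simp
  | insert p T hp ih =>
    have hT : ∀ x ∈ T, x ≠ 0 := fun x hx => hS x (mem_insert_of_mem hx)
    have : NeZero p := ⟨hS p (mem_insert_self p T)⟩
    have : NeZero (∏ x ∈ T, x) := ⟨prod_ne_zero_iff.2 hT⟩
    rw [prod_insert hp, prod_insert hp, jacobiSym.mul_right, ih hT]

theorem CS_sf (a : ℤ) (n : ℕ) (hn : Squarefree n) :
    jacobiSym a n = ∏ p ∈ n.primeFactors, jacobiSym a p := by
  rw [← CS_prod a n.primeFactors fun p hp => (Nat.prime_of_mem_primeFactors hp).ne_zero,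
    Nat.prod_primeFactors_of_squarefree hn]

theorem CS_eps (ε : ℕ → ℤ) (hε : ∀ p, ε p = 1 ∨ ε p = -1) (S : Finset ℕ) :
    ∏ p ∈ S, ε p = 1 ∨ ∏ p ∈ S, ε p = -1 := by
  classical
  induction S using Finset.induction_on with
  | empty => simp
  | insert p T hp ih =>
    rw [prod_insert hp]
    rcases hε p with h | h <;> rcases ih with h' | h' <;> rw [h, h'] <;> norm_num

theorem CS_rp (N : ℕ) [NeZero N] (l : ℕ) (hl : l.Prime) (hN : 2 * N < 2 * l) (hl2 : l ≠ 2)
    (h : jacobiSym (-(N : ℤ)) l = 1) : ∃ (C : ClassGroup (Od N)) (r : ℤ), Rp N C l r := by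
  have : Fact l.Prime := ⟨hl⟩
  have hN0 : N ≠ 0 := NeZero.ne N
  rw [← jacobiSym.legendreSym.to_jacobiSym] at h
  have hz : ((-(N : ℤ) : ℤ) : ZMod l) ≠ 0 := by
    intro h0
    rw [(legendreSym.eq_zero_iff l (-(N : ℤ))).2 h0] at h
    exact one_ne_zero h.symm
  obtain ⟨x, hx⟩ := (legendreSym.eq_one_iff l hz).1 h
  have hcop : Nat.Coprime l (2 * N) := by
    refine Nat.Coprime.mul_right ?_ ?_
    · exact (Nat.coprime_primes hl Nat.prime_two).2 hl2
    · exact (Nat.Prime.coprime_iff_not_dvd hl).2 fun hd => by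
        have := Nat.le_of_dvd (Nat.pos_of_ne_zero hN0) hd
        omega
  have hdvd : (l : ℤ) ∣ (x.val : ℤ) ^ 2 + N := by
    rw [← ZMod.intCast_zmod_eq_zero_iff_dvd _ l]
    push_cast
    rw [ZMod.natCast_zmod_val, sq, ← hx]
    push_cast
    ring
  obtain ⟨C, hC⟩ := rp_make N l (x.val : ℤ) hl.pos hcop hdvd
  exact ⟨C, _, hC⟩

theorem cs_fam (m q : ℕ) [NeZero (m * q)] (hf : Fam m q) (ε : ℕ → ℤ) (hε : ∀ p, ε p = 1 ∨ ε p = -1) :
    ∃ (C : ClassGroup (Od (m * q))) (a : ℕ) (r : ℤ), Rp (m * q) C a r ∧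
      ∀ p : ℕ, p.Prime → p ∣ m → jacobiSym a p = ε p := by
  classical
  obtain ⟨hsf, hq, hq4, h8, hm4⟩ := hf
  have hqm : ¬ q ∣ m := fun h => by
    have := hm4 q hq h
    omega
  have hm0 : m ≠ 0 := by
    rintro rfl
    simp at h8
  let ε' : ℕ → ℤ := fun p => if p = q then ∏ x ∈ m.primeFactors, ε x else ε p
  have hε' : ∀ p, ε' p = 1 ∨ ε' p = -1 := fun p => by
    simp only [ε']
    split_ifs
    · exact CS_eps ε hε _
    · exact hε p
  obtain ⟨l, hl, hln, hl8, hlp⟩ := dir (m * q) hsf (by omega) ε' hε' 1 (by norm_num)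
  have hl8' : l % 8 = 1 := by omega
  have hlodd : Odd l := Nat.odd_iff.2 (by omega)
  have hnodd : Odd (m * q) := Nat.odd_iff.2 (by omega)
  have h1 : jacobiSym (-((m * q : ℕ) : ℤ)) l = 1 := by
    rw [← neg_one_mul, jacobiSym.mul_left, jacobiSym.at_neg_one hlodd,
      ZMod.χ₄_nat_one_mod_four (by omega), one_mul,
      ← jacobiSym.quadratic_reciprocity_one_mod_four (by omega) hnodd, CS_sf _ _ hsf]
    have hprod : ∏ p ∈ (m * q).primeFactors, jacobiSym l p = ∏ p ∈ (m * q).primeFactors, ε' p :=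
      prod_congr rfl fun p hp => hlp p (Nat.prime_of_mem_primeFactors hp) (Nat.dvd_of_mem_primeFactors hp)
    have hpf : (m * q).primeFactors = insert q m.primeFactors := by
      rw [Nat.primeFactors_mul hm0 hq.ne_zero, hq.primeFactors]
      ext x
      simp only [mem_union, mem_insert, mem_singleton]
      tauto
    have hqn : q ∉ m.primeFactors := fun h => hqm (Nat.dvd_of_mem_primeFactors h)
    rw [hprod, hpf, prod_insert hqn]
    have h2 : ∏ p ∈ m.primeFactors, ε' p = ∏ p ∈ m.primeFactors, ε p :=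
      prod_congr rfl fun p hp => if_neg fun (h : p = q) => hqn (h ▸ hp)
    have h3 : ε' q = ∏ p ∈ m.primeFactors, ε p := if_pos rfl
    rw [h2, h3]
    rcases CS_eps ε hε m.primeFactors with h | h <;> rw [h] <;> norm_num
  obtain ⟨C, r, hC⟩ := CS_rp (m * q) l hl (by omega) (by omega) h1
  refine ⟨C, l, r, hC, fun p hp hpm => ?_⟩
  rw [hlp p hp (dvd_mul_of_dvd_left hpm q)]
  exact if_neg fun (h : p = q) => hqm (h ▸ hpm)

theorem cs_one (n : ℕ) [NeZero n] (hn : Squarefree n) (h1 : n % 8 = 1) (ε : ℕ → ℤ)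
    (hε : ∀ p, ε p = 1 ∨ ε p = -1) :
    ∃ (C : ClassGroup (Od n)) (a : ℕ) (r : ℤ), Rp n C a r ∧
      ∀ p : ℕ, p.Prime → p ∣ n → jacobiSym a p = ε p := by
  obtain ⟨s, hs2, hs⟩ : ∃ s : ℕ, s % 2 = 1 ∧ ∀ l : ℕ, l % 8 = s % 8 →
      jacobiSym (-1) l = ∏ p ∈ n.primeFactors, ε p := by
    rcases CS_eps ε hε n.primeFactors with h | h
    · refine ⟨1, by norm_num, fun l hl => ?_⟩
      rw [h, jacobiSym.at_neg_one (Nat.odd_iff.2 (by omega)), ZMod.χ₄_nat_one_mod_four (by omega)]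
    · refine ⟨3, by norm_num, fun l hl => ?_⟩
      rw [h, jacobiSym.at_neg_one (Nat.odd_iff.2 (by omega)), ZMod.χ₄_nat_three_mod_four (by omega)]
  obtain ⟨l, hl, hln, hl8, hlp⟩ := dir n hn (by omega) ε hε s hs2
  have hlodd : Odd l := Nat.odd_iff.2 (by omega)
  have h2 : jacobiSym (-(n : ℤ)) l = 1 := by
    rw [← neg_one_mul, jacobiSym.mul_left, hs l hl8,
      jacobiSym.quadratic_reciprocity_one_mod_four (by omega) hlodd, CS_sf _ _ hn,
      prod_congr rfl fun p hp => hlp p (Nat.prime_of_mem_primeFactors hp)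
        (Nat.dvd_of_mem_primeFactors hp)]
    rcases CS_eps ε hε n.primeFactors with h | h <;> rw [h] <;> norm_num
  obtain ⟨C, r, hC⟩ := CS_rp n l hl (by omega) (by omega) h2
  exact ⟨C, l, r, hC, hlp⟩

theorem cs_two (n : ℕ) [NeZero (2 * n)] (hn : Squarefree n) (h1 : n % 8 = 1) (ε : ℕ → ℤ)
    (hε : ∀ p, ε p = 1 ∨ ε p = -1) :
    ∃ (C : ClassGroup (Od (2 * n))) (a : ℕ) (r : ℤ), Rp (2 * n) C a r ∧
      ∀ p : ℕ, p.Prime → p ∣ n → jacobiSym a p = ε p := by
  obtain ⟨s, hs2, hs⟩ : ∃ s : ℕ, s % 2 = 1 ∧ ∀ l : ℕ, l % 8 = s % 8 →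
      jacobiSym (-1) l * jacobiSym 2 l = ∏ p ∈ n.primeFactors, ε p := by
    rcases CS_eps ε hε n.primeFactors with h | h
    · refine ⟨1, by norm_num, fun l hl => ?_⟩
      have h8 : l % 8 = 1 := by omega
      rw [h, jacobiSym.at_neg_one (Nat.odd_iff.2 (by omega)), ZMod.χ₄_nat_one_mod_four (by omega),
        jacobiSym.at_two (Nat.odd_iff.2 (by omega)), ZMod.χ₈_nat_mod_eight, h8]
      decide
    · refine ⟨5, by norm_num, fun l hl => ?_⟩
      have h8 : l % 8 = 5 := by omega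
      rw [h, jacobiSym.at_neg_one (Nat.odd_iff.2 (by omega)), ZMod.χ₄_nat_one_mod_four (by omega),
        jacobiSym.at_two (Nat.odd_iff.2 (by omega)), ZMod.χ₈_nat_mod_eight, h8]
      decide
  obtain ⟨l, hl, hln, hl8, hlp⟩ := dir n hn (by omega) ε hε s hs2
  have hlodd : Odd l := Nat.odd_iff.2 (by omega)
  have h2 : jacobiSym (-((2 * n : ℕ) : ℤ)) l = 1 := by
    have h3 : (-((2 * n : ℕ) : ℤ)) = (-1) * 2 * (n : ℤ) := by
      push_cast
      ring
    rw [h3, jacobiSym.mul_left, jacobiSym.mul_left, hs l hl8,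
      jacobiSym.quadratic_reciprocity_one_mod_four (by omega) hlodd, CS_sf _ _ hn,
      prod_congr rfl fun p hp => hlp p (Nat.prime_of_mem_primeFactors hp)
        (Nat.dvd_of_mem_primeFactors hp)]
    rcases CS_eps ε hε n.primeFactors with h | h <;> rw [h] <;> norm_num
  obtain ⟨C, r, hC⟩ := CS_rp (2 * n) l hl (by omega) (by omega) h2
  exact ⟨C, l, r, hC, hlp⟩

end Pool.Agent.GL
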